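import Mathlib

namespace Pool.Agent.Results.MP_5e019f_nt.FourthPowerLog

open Finset

/-- `x` is a perfect `d`-th power (of a positive integer). -/
def IsPerfectPower (d x : ℕ) : Prop := ∃ y : ℕ, 0 < y ∧ x = y ^ d

/-- No product of `k` pairwise distinct elements of `A` is a perfect `d`-th power. -/
def FreeDistinct (k d : ℕ) (A : Finset ℕ) : Prop :=
  ∀ B : Finset ℕ, B ⊆ A → B.card = k → ¬ IsPerfectPower d (∏ b ∈ B, b)

/-- No product `a₁ ⋯ a_k` of elements of `A` (repetitions allowed) is a perfect `d`-th power. -/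
def FreeAll (k d : ℕ) (A : Finset ℕ) : Prop :=
  ∀ a : Fin k → ℕ, (∀ i, a i ∈ A) → ¬ IsPerfectPower d (∏ i, a i)

/-- `F_{k,d}(n)`. -/
noncomputable def F (k d n : ℕ) : ℕ :=
  sSup {c : ℕ | ∃ A : Finset ℕ, A ⊆ Icc 1 n ∧ FreeDistinct k d A ∧ A.card = c}

/-- `f_{k,d}(n)`. -/
noncomputable def f (k d n : ℕ) : ℕ :=
  sSup {c : ℕ | ∃ A : Finset ℕ, A ⊆ Icc 1 n ∧ FreeAll k d A ∧ A.card = c}

/-- The statement of Q1. -/
def Q1 : Prop :=
  ∀ k d : ℕ, 1 < k → k < d → 4 ≤ d → ∃ c C : ℝ, 0 < c ∧ c ≤ C ∧ ∃ n₀ : ℕ, ∀ n : ℕ, n₀ ≤ n →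
    c * (n : ℝ) ^ ((k : ℝ) / (d : ℝ)) ≤ (n : ℝ) - (F k d n : ℝ) ∧
    (n : ℝ) - (F k d n : ℝ) ≤ (n : ℝ) - (f k d n : ℝ) ∧
    (n : ℝ) - (f k d n : ℝ) ≤ C * (n : ℝ) ^ ((k : ℝ) / (d : ℝ))

/-! ### Squarefree parts are unique -/

lemma sqfree_part_unique {s s' y y' : ℕ} (hs : Squarefree s) (hs' : Squarefree s')
    (hy : y ≠ 0) (hy' : y' ≠ 0) (h : s * y ^ 2 = s' * y' ^ 2) : s = s' := by
  have hs0 : s ≠ 0 := hs.ne_zero
  have hs0' : s' ≠ 0 := hs'.ne_zero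
  apply Nat.eq_of_factorization_eq hs0 hs0'
  intro p
  have h1 : (s * y ^ 2).factorization p = (s' * y' ^ 2).factorization p := by rw [h]
  rw [Nat.factorization_mul hs0 (pow_ne_zero _ hy), Nat.factorization_mul hs0' (pow_ne_zero _ hy'),
    Nat.factorization_pow, Nat.factorization_pow] at h1
  simp only [Finsupp.add_apply, Finsupp.smul_apply, smul_eq_mul] at h1
  have h2 := hs.natFactorization_le_one p
  have h3 := hs'.natFactorization_le_one p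
  omega

/-- The number of squarefree integers in `[1, x]` is at least `x / 4`. -/
lemma card_squarefree (x : ℕ) : x ≤ 4 * ((Icc 1 x).filter Squarefree).card := by
  have h1 : ((Icc 1 x).filter (fun u => ¬ Squarefree u)).card ≤ ∑ q ∈ Icc 2 x, x / q ^ 2 := by
    have hsub : (Icc 1 x).filter (fun u => ¬ Squarefree u) ⊆
        (Icc 2 x).biUnion (fun q => (Ioc 0 x).filter (fun u => q ^ 2 ∣ u)) := by
      intro u hu
      rw [mem_filter, mem_Icc] at hu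
      obtain ⟨⟨hu1, hux⟩, hsq⟩ := hu
      rw [Nat.squarefree_iff_prime_squarefree] at hsq
      push Not at hsq
      obtain ⟨q, hq, hqu⟩ := hsq
      rw [mem_biUnion]
      refine ⟨q, ?_, ?_⟩
      · rw [mem_Icc]
        refine ⟨hq.two_le, ?_⟩
        have := Nat.le_of_dvd (by omega) hqu
        nlinarith [hq.two_le]
      · rw [mem_filter, mem_Ioc]
        exact ⟨⟨by omega, hux⟩, by rw [pow_two]; exact hqu⟩
    calc ((Icc 1 x).filter (fun u => ¬ Squarefree u)).card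
        ≤ ((Icc 2 x).biUnion (fun q => (Ioc 0 x).filter (fun u => q ^ 2 ∣ u))).card :=
          card_le_card hsub
      _ ≤ ∑ q ∈ Icc 2 x, ((Ioc 0 x).filter (fun u => q ^ 2 ∣ u)).card := card_biUnion_le
      _ = ∑ q ∈ Icc 2 x, x / q ^ 2 := by
          apply sum_congr rfl
          intro q _
          exact Nat.Ioc_filter_dvd_card_eq_div x (q ^ 2)
  -- `∑_{2 ≤ q ≤ N} 1/q² ≤ 3/4`
  have h2 : ∀ N : ℕ, 2 ≤ N → ∑ q ∈ Icc 2 N, (1 : ℝ) / (q : ℝ) ^ 2 ≤ 3 / 4 - 1 / N + 0 := by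
    intro N hN
    induction N, hN using Nat.le_induction with
    | base => norm_num
    | succ N hN ih =>
      rw [Finset.sum_Icc_succ_top (by omega)]
      have hNpos : (0 : ℝ) < N := by
        have : 0 < N := by omega
        exact_mod_cast this
      have h3 : (1 : ℝ) / ((N + 1 : ℕ) : ℝ) ^ 2 ≤ 1 / N - 1 / ((N + 1 : ℕ) : ℝ) := by
        push_cast
        rw [div_sub_div _ _ (by positivity) (by positivity), div_le_div_iff₀ (by positivity)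
          (by positivity)]
        nlinarith
      linarith
  have h3 : ((∑ q ∈ Icc 2 x, x / q ^ 2 : ℕ) : ℝ) ≤ 3 / 4 * x := by
    push_cast
    calc ∑ q ∈ Icc 2 x, ((x / q ^ 2 : ℕ) : ℝ) ≤ ∑ q ∈ Icc 2 x, (x : ℝ) * (1 / (q : ℝ) ^ 2) := by
          apply sum_le_sum
          intro q _
          have := @Nat.cast_div_le ℝ _ _ _ x (q ^ 2)
          calc ((x / q ^ 2 : ℕ) : ℝ) ≤ (x : ℝ) / ((q ^ 2 : ℕ) : ℝ) := this
            _ = (x : ℝ) * (1 / (q : ℝ) ^ 2) := by push_cast; ring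
      _ = (x : ℝ) * ∑ q ∈ Icc 2 x, (1 : ℝ) / (q : ℝ) ^ 2 := by rw [mul_sum]
      _ ≤ 3 / 4 * x := by
          rcases Nat.lt_or_ge x 2 with hx | hx
          · rw [Icc_eq_empty (by omega)]
            simp
          · have h4 := h2 x hx
            have h5 : (0 : ℝ) ≤ 1 / (x : ℝ) := by positivity
            have h6 : (0 : ℝ) ≤ x := by positivity
            nlinarith
  have h4 : ((Icc 1 x).filter Squarefree).card + ((Icc 1 x).filter (fun u => ¬ Squarefree u)).card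
      = x := by
    rw [Finset.card_filter_add_card_filter_not]
    simp
  have h5 : (((Icc 1 x).filter (fun u => ¬ Squarefree u)).card : ℝ) ≤ 3 / 4 * x := by
    refine le_trans ?_ h3
    exact_mod_cast h1
  have h6 : (((Icc 1 x).filter Squarefree).card : ℝ) +
      (((Icc 1 x).filter (fun u => ¬ Squarefree u)).card : ℝ) = x := by exact_mod_cast h4
  have h7 : (x : ℝ) ≤ 4 * (((Icc 1 x).filter Squarefree).card : ℝ) := by linarith
  exact_mod_cast h7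


/-! ### The matching -/

/-- The data `(p, u, v)`: `p` prime, `u < p` squarefree, `v` prime to `p`. -/
def Good (p u v : ℕ) : Prop := p.Prime ∧ 0 < u ∧ u < p ∧ Squarefree u ∧ 0 < v ∧ ¬ p ∣ v

lemma good_squarefree {p u v : ℕ} (h : Good p u v) : Squarefree (p * u) := by
  obtain ⟨hp, hu0, hup, hu, _, _⟩ := h
  rw [Nat.squarefree_mul]
  · exact ⟨hp.prime.squarefree, hu⟩
  · rw [Nat.Prime.coprime_iff_not_dvd hp]
    exact Nat.not_dvd_of_pos_of_lt hu0 hup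

lemma recover {p u v p' u' v' x : ℕ} (h : Good p u v) (h' : Good p' u' v')
    (hx : x = p ^ 3 * u * v ^ 2 ∨ x = p * u ^ 3 * v ^ 2)
    (hx' : x = p' ^ 3 * u' * v' ^ 2 ∨ x = p' * u' ^ 3 * v' ^ 2) :
    p = p' ∧ u = u' ∧ v = v' := by
  have hsq := good_squarefree h
  have hsq' := good_squarefree h'
  obtain ⟨hp, hu0, hup, hu, hv0, hpv⟩ := h
  obtain ⟨hp', hu0', hup', hu', hv0', hpv'⟩ := h'
  have hp0 := hp.pos
  have hp0' := hp'.pos
  obtain ⟨y, hy0, hy, hxy⟩ : ∃ y, y ≠ 0 ∧ (y = p * v ∨ y = u * v) ∧ x = p * u * y ^ 2 := by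
    rcases hx with hx | hx
    · exact ⟨p * v, (Nat.mul_pos hp0 hv0).ne', Or.inl rfl, by rw [hx]; ring⟩
    · exact ⟨u * v, (Nat.mul_pos hu0 hv0).ne', Or.inr rfl, by rw [hx]; ring⟩
  obtain ⟨y', hy0', hy', hxy'⟩ : ∃ y, y ≠ 0 ∧ (y = p' * v' ∨ y = u' * v') ∧
      x = p' * u' * y ^ 2 := by
    rcases hx' with hx | hx
    · exact ⟨p' * v', (Nat.mul_pos hp0' hv0').ne', Or.inl rfl, by rw [hx]; ring⟩
    · exact ⟨u' * v', (Nat.mul_pos hu0' hv0').ne', Or.inr rfl, by rw [hx]; ring⟩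
  have hpu : p * u = p' * u' :=
    sqfree_part_unique hsq hsq' hy0 hy0' (by rw [← hxy, ← hxy'])
  have hpp : p = p' := by
    have h1 : p ∣ p' * u' := ⟨u, hpu.symm⟩
    have h2 : p' ∣ p * u := ⟨u', hpu⟩
    rcases (Nat.Prime.dvd_mul hp).mp h1 with h3 | h3
    · exact (Nat.prime_dvd_prime_iff_eq hp hp').mp h3
    · rcases (Nat.Prime.dvd_mul hp').mp h2 with h4 | h4
      · exact ((Nat.prime_dvd_prime_iff_eq hp' hp).mp h4).symm
      · have h5 := Nat.le_of_dvd hu0' h3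
        have h6 := Nat.le_of_dvd hu0 h4
        omega
  subst hpp
  have huu : u = u' := Nat.eq_of_mul_eq_mul_left hp0 hpu
  subst huu
  have hyy : y = y' := by
    have h1 : p * u * y ^ 2 = p * u * y' ^ 2 := by rw [← hxy, ← hxy']
    have h2 : y ^ 2 = y' ^ 2 := Nat.eq_of_mul_eq_mul_left (Nat.mul_pos hp0 hu0) h1
    exact Nat.pow_left_injective (n := 2) (by norm_num) h2
  subst hyy
  have hpu' : ¬ p ∣ u := Nat.not_dvd_of_pos_of_lt hu0 hup
  refine ⟨rfl, rfl, ?_⟩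
  rcases hy with hy | hy <;> rcases hy' with hy' | hy'
  · exact Nat.eq_of_mul_eq_mul_left hp0 (by rw [← hy, ← hy'])
  · exfalso
    have : p ∣ u * v' := ⟨v, by rw [← hy', ← hy]⟩
    rcases (Nat.Prime.dvd_mul hp).mp this with h3 | h3
    · exact hpu' h3
    · exact hpv' h3
  · exfalso
    have : p ∣ u * v := ⟨v', by rw [← hy', ← hy]⟩
    rcases (Nat.Prime.dvd_mul hp).mp this with h3 | h3
    · exact hpu' h3
    · exact hpv h3
  · exact Nat.eq_of_mul_eq_mul_left hu0 (by rw [← hy, ← hy'])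

/-- The index set of the matching. -/
def T (S : Finset ℕ) (M : ℕ) : Finset (Σ _ : ℕ, ℕ × ℕ) :=
  S.sigma (fun p => ((Icc 1 (p - 1)).filter Squarefree) ×ˢ
    ((Icc 1 (M / p ^ 2)).filter (fun v => ¬ p ∣ v)))

lemma good_of_mem {S : Finset ℕ} {M : ℕ} (hS : ∀ p ∈ S, p.Prime) {t : Σ _ : ℕ, ℕ × ℕ}
    (ht : t ∈ T S M) : Good t.1 t.2.1 t.2.2 ∧ t.2.2 ≤ M / t.1 ^ 2 := by
  unfold T at ht
  rw [mem_sigma, mem_product, mem_filter, mem_filter, mem_Icc, mem_Icc] at ht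
  obtain ⟨h1, ⟨⟨h2, h3⟩, h4⟩, ⟨h5, h6⟩, h7⟩ := ht
  have := (hS _ h1).two_le
  exact ⟨⟨hS _ h1, by omega, by omega, h4, by omega, h7⟩, h6⟩

lemma matching {S : Finset ℕ} {M : ℕ} (hS : ∀ p ∈ S, p.Prime) {A : Finset ℕ}
    (hA : A ⊆ Icc 1 (M ^ 2)) (hfree : FreeDistinct 2 4 A) :
    (T S M).card + A.card ≤ M ^ 2 := by
  classical
  set e : (Σ _ : ℕ, ℕ × ℕ) → ℕ := fun t =>
    if t.1 ^ 3 * t.2.1 * t.2.2 ^ 2 ∈ A then t.1 * t.2.1 ^ 3 * t.2.2 ^ 2
    else t.1 ^ 3 * t.2.1 * t.2.2 ^ 2 with he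
  have hcase : ∀ t, e t = t.1 ^ 3 * t.2.1 * t.2.2 ^ 2 ∨ e t = t.1 * t.2.1 ^ 3 * t.2.2 ^ 2 := by
    intro t
    simp only [he]
    split_ifs
    · right; rfl
    · left; rfl
  have hmaps : ∀ t ∈ T S M, e t ∈ Icc 1 (M ^ 2) \ A := by
    rintro ⟨p, u, v⟩ ht
    obtain ⟨⟨hp, hu0, hup, hu, hv0, hpv⟩, hvM⟩ := good_of_mem hS ht
    simp only at hp hu0 hup hu hv0 hpv hvM
    have hp0 := hp.pos
    have hbound : p ^ 2 * v ≤ M := by
      calc p ^ 2 * v ≤ p ^ 2 * (M / p ^ 2) := Nat.mul_le_mul_left _ hvM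
      _ ≤ M := Nat.mul_div_le M (p ^ 2)
    have hsq : p ^ 4 * v ^ 2 ≤ M ^ 2 := by
      calc p ^ 4 * v ^ 2 = (p ^ 2 * v) ^ 2 := by ring
      _ ≤ M ^ 2 := Nat.pow_le_pow_left hbound 2
    have ha_le : p ^ 3 * u * v ^ 2 ≤ M ^ 2 := by
      calc p ^ 3 * u * v ^ 2 ≤ p ^ 3 * p * v ^ 2 := by gcongr
      _ = p ^ 4 * v ^ 2 := by ring
      _ ≤ M ^ 2 := hsq
    have hb_lt : p * u ^ 3 * v ^ 2 < p ^ 3 * u * v ^ 2 := by
      have h1 : u ^ 2 < p ^ 2 := Nat.pow_lt_pow_left hup (by norm_num)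
      have h2 : 0 < p * u * v ^ 2 := by positivity
      calc p * u ^ 3 * v ^ 2 = p * u * v ^ 2 * u ^ 2 := by ring
      _ < p * u * v ^ 2 * p ^ 2 := Nat.mul_lt_mul_of_pos_left h1 h2
      _ = p ^ 3 * u * v ^ 2 := by ring
    have ha_pos : 1 ≤ p ^ 3 * u * v ^ 2 := Nat.succ_le_of_lt (by positivity)
    have hb_pos : 1 ≤ p * u ^ 3 * v ^ 2 := Nat.succ_le_of_lt (by positivity)
    rw [mem_sdiff, mem_Icc]
    by_cases hmem : p ^ 3 * u * v ^ 2 ∈ A
    · have hev : e ⟨p, u, v⟩ = p * u ^ 3 * v ^ 2 := by simp only [he]; rw [if_pos hmem]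
      rw [hev]
      refine ⟨⟨hb_pos, by omega⟩, ?_⟩
      intro hbA
      refine hfree {p ^ 3 * u * v ^ 2, p * u ^ 3 * v ^ 2} ?_ ?_ ?_
      · intro z hz
        rw [mem_insert, mem_singleton] at hz
        rcases hz with rfl | rfl
        · exact hmem
        · exact hbA
      · rw [card_pair]
        omega
      · refine ⟨p * u * v, by positivity, ?_⟩
        rw [prod_pair (by omega)]
        ring
    · have hev : e ⟨p, u, v⟩ = p ^ 3 * u * v ^ 2 := by simp only [he]; rw [if_neg hmem]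
      rw [hev]
      exact ⟨⟨ha_pos, ha_le⟩, hmem⟩
  have hinj : Set.InjOn e (T S M : Set (Σ _ : ℕ, ℕ × ℕ)) := by
    rintro ⟨p, u, v⟩ ht ⟨p', u', v'⟩ ht' heq
    have hg := (good_of_mem hS (mem_coe.mp ht)).1
    have hg' := (good_of_mem hS (mem_coe.mp ht')).1
    have h1 := hcase ⟨p, u, v⟩
    have h2 := hcase ⟨p', u', v'⟩
    rw [← heq] at h2
    obtain ⟨rfl, rfl, rfl⟩ := recover hg hg' h1 h2
    rfl
  have hcard : (T S M).card ≤ (Icc 1 (M ^ 2) \ A).card := card_le_card_of_injOn e hmaps hinj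
  rw [card_sdiff_of_subset hA, Nat.card_Icc, Nat.add_sub_cancel] at hcard
  have hAle : A.card ≤ M ^ 2 := by
    calc A.card ≤ (Icc 1 (M ^ 2)).card := card_le_card hA
    _ = M ^ 2 := by simp
  omega

/-! ### Counting -/

lemma card_V {p M : ℕ} (hp : p.Prime) (hM : p ^ 3 ∣ M) :
    (M : ℝ) / p ^ 2 / 2 ≤ (((Icc 1 (M / p ^ 2)).filter (fun v => ¬ p ∣ v)).card : ℝ) := by
  have h0 : (p : ℝ) ≠ 0 := by exact_mod_cast hp.ne_zero
  have hp2 : (2 : ℝ) ≤ p := by exact_mod_cast hp.two_le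
  have h1 : ((Icc 1 (M / p ^ 2)).filter (fun v => p ∣ v)).card +
      ((Icc 1 (M / p ^ 2)).filter (fun v => ¬ p ∣ v)).card = M / p ^ 2 := by
    rw [Finset.card_filter_add_card_filter_not]
    simp
  have h2 : ((Icc 1 (M / p ^ 2)).filter (fun v => p ∣ v)).card = M / p ^ 2 / p :=
    Nat.Ioc_filter_dvd_card_eq_div (M / p ^ 2) p
  obtain ⟨k, rfl⟩ := hM
  have h3 : p ^ 3 * k / p ^ 2 = p * k := by
    rw [show p ^ 3 * k = p ^ 2 * (p * k) by ring]
    exact Nat.mul_div_cancel_left _ (pow_pos hp.pos 2)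
  rw [h3] at h1 h2 ⊢
  rw [Nat.mul_div_cancel_left _ hp.pos] at h2
  rw [h2] at h1
  have h4 : (k : ℝ) + (((Icc 1 (p * k)).filter (fun v => ¬ p ∣ v)).card : ℝ) = p * k := by
    exact_mod_cast h1
  have h5 : ((p ^ 3 * k : ℕ) : ℝ) / p ^ 2 / 2 = p * k / 2 := by
    push_cast
    field_simp
  rw [h5]
  have hk : (0 : ℝ) ≤ k := Nat.cast_nonneg k
  nlinarith

lemma card_T {S : Finset ℕ} {M : ℕ} (hS : ∀ p ∈ S, p.Prime) (hM : ∀ p ∈ S, p ^ 3 ∣ M) :
    (M : ℝ) / 16 * ∑ p ∈ S, (1 : ℝ) / p ≤ ((T S M).card : ℝ) := by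
  unfold T
  rw [card_sigma, mul_sum]
  push_cast
  apply sum_le_sum
  intro p hp
  rw [card_product]
  push_cast
  have hpr := hS p hp
  have h0 : (p : ℝ) ≠ 0 := by exact_mod_cast hpr.ne_zero
  have hp2 : (2 : ℝ) ≤ p := by exact_mod_cast hpr.two_le
  have h1 := card_V hpr (hM p hp)
  have h2 : (p : ℝ) / 8 ≤ (((Icc 1 (p - 1)).filter Squarefree).card : ℝ) := by
    have h3 := card_squarefree (p - 1)
    have h4 : ((p - 1 : ℕ) : ℝ) ≤ 4 * (((Icc 1 (p - 1)).filter Squarefree).card : ℝ) := by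
      exact_mod_cast h3
    rw [Nat.cast_sub hpr.one_lt.le] at h4
    push_cast at h4
    linarith
  calc (M : ℝ) / 16 * (1 / p) = (p : ℝ) / 8 * ((M : ℝ) / p ^ 2 / 2) := by
        field_simp
        ring
    _ ≤ (((Icc 1 (p - 1)).filter Squarefree).card : ℝ) *
        (((Icc 1 (M / p ^ 2)).filter (fun v => ¬ p ∣ v)).card : ℝ) := by
        apply mul_le_mul h2 h1 (by positivity) (by positivity)

lemma exists_primes (K : ℝ) : ∃ S : Finset ℕ, (∀ p ∈ S, p.Prime) ∧ K < ∑ p ∈ S, (1 : ℝ) / p := by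
  have h := not_summable_one_div_on_primes
  rw [not_summable_iff_tendsto_nat_atTop_of_nonneg] at h
  · obtain ⟨N, hN⟩ := (h.eventually_gt_atTop K).exists
    refine ⟨(range N).filter Nat.Prime, fun p hp => (mem_filter.mp hp).2, ?_⟩
    rw [sum_filter]
    refine lt_of_lt_of_eq hN ?_
    apply sum_congr rfl
    intro i _
    simp [Set.indicator_apply]
  · intro n
    apply Set.indicator_nonneg
    intro x _
    positivity

/-- `(n - F_{2,4}(n)) / n^{2/4}` is unbounded. -/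
theorem unbounded (C : ℝ) (N : ℕ) : ∃ n : ℕ, N ≤ n ∧
    C * (n : ℝ) ^ (((2 : ℕ) : ℝ) / ((4 : ℕ) : ℝ)) < (n : ℝ) - (F 2 4 n : ℝ) := by
  obtain ⟨S, hS, hK⟩ := exists_primes (16 * C)
  set M : ℕ := (N + 1) * ∏ p ∈ S, p ^ 3 with hMdef
  have hprod : 0 < ∏ p ∈ S, p ^ 3 := prod_pos (fun p hp => pow_pos (hS p hp).pos 3)
  have hMpos : 0 < M := Nat.mul_pos (Nat.succ_pos N) hprod
  have hNM : N ≤ M := by
    calc N ≤ (N + 1) * 1 := by omega
    _ ≤ (N + 1) * ∏ p ∈ S, p ^ 3 := Nat.mul_le_mul_left _ hprod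
  have hMdvd : ∀ p ∈ S, p ^ 3 ∣ M := fun p hp =>
    Dvd.dvd.mul_left (dvd_prod_of_mem (fun q => q ^ 3) hp) (N + 1)
  refine ⟨M ^ 2, ?_, ?_⟩
  · calc N ≤ M := hNM
    _ ≤ M ^ 2 := by nlinarith
  have hF : F 2 4 (M ^ 2) + (T S M).card ≤ M ^ 2 := by
    have hT : (T S M).card ≤ M ^ 2 := by
      have := matching (M := M) hS (A := ∅) (empty_subset _) (by
        intro B hB hc
        rw [subset_empty] at hB
        subst hB
        simp at hc)
      simpa using this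
    have h1 : F 2 4 (M ^ 2) ≤ M ^ 2 - (T S M).card := by
      apply csSup_le
      · refine ⟨0, ∅, empty_subset _, ?_, rfl⟩
        intro B hB hc
        rw [subset_empty] at hB
        subst hB
        simp at hc
      · rintro c ⟨A, hA, hfree, rfl⟩
        have := matching (M := M) hS hA hfree
        omega
    omega
  have hT := card_T hS hMdvd
  have hFr : (F 2 4 (M ^ 2) : ℝ) + ((T S M).card : ℝ) ≤ ((M ^ 2 : ℕ) : ℝ) := by exact_mod_cast hF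
  have hroot : (((M ^ 2 : ℕ) : ℝ)) ^ (((2 : ℕ) : ℝ) / ((4 : ℕ) : ℝ)) = M := by
    have : (((2 : ℕ) : ℝ) / ((4 : ℕ) : ℝ)) = 1 / 2 := by norm_num
    rw [this, ← Real.sqrt_eq_rpow]
    push_cast
    exact Real.sqrt_sq (Nat.cast_nonneg M)
  rw [hroot]
  have hMr : (0 : ℝ) < M := by exact_mod_cast hMpos
  have : C * M < (M : ℝ) / 16 * ∑ p ∈ S, (1 : ℝ) / p := by
    have := mul_lt_mul_of_pos_left hK hMr
    linarith
  linarith

/-- Q1 fails: for `(k, d) = (2, 4)` the ratio `(n - F_{2,4}(n)) / n^{2/4}` is unbounded. -/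
theorem result : (∀ C : ℝ, ∀ N : ℕ, ∃ n : ℕ, N ≤ n ∧
    C * (n : ℝ) ^ (((2 : ℕ) : ℝ) / ((4 : ℕ) : ℝ)) < (n : ℝ) - (F 2 4 n : ℝ)) ∧ ¬ Q1 := by
  refine ⟨unbounded, ?_⟩
  intro h
  obtain ⟨c, C, _, _, N, hN⟩ := h 2 4 (by norm_num) (by norm_num) le_rfl
  obtain ⟨n, hn, hlt⟩ := unbounded C N
  obtain ⟨_, h2, h3⟩ := hN n hn
  linarith

end Pool.Agent.Results.MP_5e019f_nt.FourthPowerLog
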